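import Pool.Agent.TH817.Z3.Stm
import Pool.Agent.H337R2.LZ.C4
import Pool.Agent.H336R2.HD.A1
import Pool.Agent.H336R2.HD.A3

/-! Task D4 (second design): the small primes; port of W764.Z3.D4. -/

open Polynomial Pool.Agent.H337R2 Pool.Agent.TH817.Z3

namespace Pool.Agent.TH615.Z3

noncomputable section

set_option linter.unusedVariables false

/-- the node weights -/
def D4f (p i : ℕ) : ℚ := padicNorm p ((i.factorial : ℕ) : ℚ)

lemma D4f_nonneg (p i : ℕ) [Fact p.Prime] : 0 ≤ D4f p i := padicNorm.nonneg _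

/-- polynomials with consecutive zeros -/
def D4P (i : ℕ) : ℚ[X] := ∏ l ∈ Finset.range i, (X + C (l : ℚ))

lemma D4P_monic (i : ℕ) : (D4P i).Monic ∧ (D4P i).natDegree = i := by
  constructor
  · exact monic_prod_of_monic _ _ fun l _ => monic_X_add_C _
  · rw [D4P, natDegree_prod_of_monic _ _ fun l _ => monic_X_add_C _]
    simp only [natDegree_X_add_C, Finset.sum_const, Finset.card_range, smul_eq_mul, mul_one]

/-- the assembly common to both cases -/
lemma D4_aux {n p : ℕ} [Fact p.Prime] (q : ℕ) (x : ℚ) (m : ℕ) (U : ℚ) (hU : 0 ≤ U)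
    (h : ∀ i j : ℕ, i < m → j < m →
      padicNorm p ((q : ℚ) * xf n x (PF n * (D4P i * D4P j))) ≤ U * (D4f p i * D4f p j)) :
    padicNorm p ((q : ℚ) ^ m * DET n x m) ≤ U ^ m * ∏ i ∈ Finset.range m, D4f p i ^ 2 := by
  have h1 : (q : ℚ) ^ m * DET n x m =
      ((q : ℚ) • (Matrix.of fun i j : Fin m => NL n x (D4P i * D4P j))).det := by
    rw [Matrix.det_smul, Fintype.card_fin, DET,
      ← Pool.Agent.H336R2.HD.A1_det_monic (NL n x) m D4P (fun i _ => D4P_monic i)]
  rw [h1]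
  have h2 := Pool.Agent.H336R2.HD.A3_padic_det p m
    ((q : ℚ) • (Matrix.of fun i j : Fin m => NL n x (D4P i * D4P j)))
    (fun i => U * D4f p i ^ 2) (fun i => mul_nonneg hU (by positivity)) (by
      intro i j
      have h3 := h i j i.2 j.2
      have h4 : (((q : ℚ) • (Matrix.of fun i j : Fin m => NL n x (D4P i * D4P j))) i j) =
          (q : ℚ) * xf n x (PF n * (D4P i * D4P j)) := by
        rw [Matrix.smul_apply, Matrix.of_apply, smul_eq_mul, NL_apply]
      rw [h4]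
      calc _ ≤ (U * (D4f p i * D4f p j)) ^ 2 := pow_le_pow_left₀ (padicNorm.nonneg _) h3 2
        _ = _ := by ring)
  refine h2.trans (le_of_eq ?_)
  rw [Finset.prod_mul_distrib, Finset.prod_const, Finset.card_range]

lemma D4_lin (p : ℕ) [Fact p.Prime] (z : ℤ) (a : ℚ) (ha : a = (z : ℚ)) :
    PB p 1 1 (PowerSeries.X + PowerSeries.C a) := by
  refine PB.linX zero_le_one zero_le_one ?_ (by norm_num)
  rw [ha]
  exact padicNorm.of_int z

lemma D4_mul (p : ℕ) [Fact p.Prime] (f g : PowerSeries ℚ) (hf : PB p 1 1 f) (hg : PB p 1 1 g) :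
    PB p 1 1 (f * g) := by
  have h := PB.mul (p := p) (ρ := 1) (A := 1) (B := 1) zero_le_one zero_le_one zero_le_one hf hg
  rwa [one_mul] at h

lemma D4P_int (p k i : ℕ) [Fact p.Prime] : PB p 1 1 (TS (-(k : ℚ)) (D4P i)) := by
  induction i with
  | zero =>
    have h : D4P 0 = 1 := by simp [D4P]
    rw [h, map_one]
    exact PB.one zero_le_one
  | succ i ih =>
    have h : D4P (i + 1) = D4P i * (X + C (i : ℚ)) := by
      rw [D4P, Finset.prod_range_succ]
      rfl
    rw [h, map_mul]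
    refine D4_mul p _ _ ih ?_
    rw [TS_lin]
    exact D4_lin p (-(k : ℤ) + i) _ (by push_cast; ring)

lemma D4E_int (p k i j : ℕ) [Fact p.Prime] : PB p 1 1 (TS (-(k : ℚ)) (D4P i * D4P j)) := by
  rw [map_mul]
  exact D4_mul p _ _ (D4P_int p k i) (D4P_int p k j)

/-- counting: a block of `N` consecutive integers has at least `⌊N/p⌋` elements in a class -/
lemma D4_cnt_ge {p A B k N : ℕ} (hp : 0 < p) (h : B + 1 = A + N) : ((N / p : ℕ) : ℤ) ≤ cnt p A B k := by
  rw [cnt_eq p A B k hp (by omega)]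
  have h1 := ediv_super ((A : ℤ) - 1 - k) (N : ℤ) p (by exact_mod_cast hp)
  have h2 : (A : ℤ) - 1 - k + N = (B : ℤ) - k := by omega
  rw [h2] at h1
  push_cast
  linarith

/-- counting: a block of `N + 1` consecutive integers has at most `⌊N/p⌋ + 1` elements in a class -/
lemma D4_cnt_le {p A B k N : ℕ} (hp : 0 < p) (h : B = A + N) : (cnt p A B k : ℤ) ≤ ((N / p : ℕ) : ℤ) + 1 := by
  rw [cnt_eq p A B k hp (by omega)]
  have hp' : (0 : ℤ) < p := by exact_mod_cast hp
  have h1 := ediv_sub1 ((A : ℤ) - 1 - k) (N : ℤ) p hp'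
  have h2 : (A : ℤ) - 1 - k + N + 1 = (B : ℤ) - k := by omega
  rw [h2] at h1
  push_cast
  linarith

/-- the trivial bound of the exponent -/
theorem D4_eF_ge {n p k : ℕ} (hp : 0 < p) : -2 ≤ eF n p k := by
  rcases Nat.eq_zero_or_pos n with rfl | hn
  · have hc : ∀ A B : ℕ, B < A → cnt p A B k = 0 := by
      intro A B hAB
      unfold cnt
      rw [Finset.Icc_eq_empty (by omega)]
      rfl
    unfold eF
    rw [hc (0 / 2 + 1) (3 * 0) (by norm_num)]
    norm_num
  have h1 := D4_cnt_ge (k := k) hp (show 3 * n + 1 = (n / 2 + 1) + (3 * n - n / 2) by omega)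
  have h2 := D4_cnt_ge (k := k) hp (show 7 * n / 2 + 1 = (n + 1) + (7 * n / 2 - n) by omega)
  have h3 := D4_cnt_le (k := k) hp (show 8 * n = (7 * n / 2 + 1) + (8 * n - 7 * n / 2 - 1) by omega)
  have h4 := D4_cnt_le (k := k) hp (show 17 * n / 2 = (4 * n + 1) + (17 * n / 2 - 4 * n - 1) by omega)
  have e1 : 5 * n / 2 / p ≤ (3 * n - n / 2) / p := Nat.div_le_div_right (by omega)
  have e2 : 5 * n / 2 / p ≤ (7 * n / 2 - n) / p := Nat.div_le_div_right (by omega)
  have e3 : (8 * n - 7 * n / 2 - 1) / p ≤ 9 * n / 2 / p := Nat.div_le_div_right (by omega)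
  have e4 : (17 * n / 2 - 4 * n - 1) / p ≤ 9 * n / 2 / p := Nat.div_le_div_right (by omega)
  zify at e1 e2 e3 e4
  unfold eF
  push_cast at h1 h2 h3 h4 e1 e2 e3 e4 ⊢
  linarith

theorem D4m_of (h : StC2) : StD4m := by
  intro n p _ hn hp2 q x hq
  have hp : p.Prime := Fact.out
  have hp1 : (1 : ℚ) ≤ p := by exact_mod_cast hp.one_lt.le
  have hp0 : (0 : ℚ) ≤ p := by linarith
  have hPB1 : ∀ i : ℕ, i ≤ 14 * n → ∀ k : ℕ, PB p (p : ℚ) (D4f p i) (TS (-(k : ℚ)) (D4P i)) := by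
    intro i hi k
    apply Pool.Agent.LZ.C4_PB (n := n) (p : ℚ) hp1 _ i hi k
    intro l hl1 hl2
    have h1 := norm_small (p := p) (a := (l : ℤ)) (by omega) (by
      rw [abs_of_nonneg (by positivity)]
      have h2 : l < p ^ 2 := by omega
      exact_mod_cast h2)
    rw [Int.cast_natCast] at h1
    rw [h1]
    split_ifs
    · rw [inv_inv]
    · rw [inv_one]; exact hp1
  have hPB : ∀ i j : ℕ, i < 2 * n → j < 2 * n → ∀ k : ℕ,
      PB p (p : ℚ) (D4f p i * D4f p j) (TS (-(k : ℚ)) (D4P i * D4P j)) := by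
    intro i j hi hj k
    rw [map_mul]
    exact PB.mul hp0 (D4f_nonneg p i) (D4f_nonneg p j) (hPB1 i (by omega) k) (hPB1 j (by omega) k)
  refine D4_aux (n := n) (p := p) q x (2 * n) ((p : ℚ) ^ 3) (by positivity) ?_
  intro i j hi hj
  have hA : 0 ≤ D4f p i * D4f p j := mul_nonneg (D4f_nonneg p i) (D4f_nonneg p j)
  apply h hn (by omega) q x hq (D4P i * D4P j) _ (mul_nonneg (by positivity) hA)
    (fun _ => D4f p i * D4f p j) (fun _ => hA) (fun k _ => hPB i j hi hj k)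
    (fun k _ => D4E_int p k i j)
  intro k _
  left
  apply mul_le_mul_of_nonneg_right _ hA
  rw [← zpow_natCast (p : ℚ) 3]
  apply zpow_le_zpow_right₀ hp1
  have := D4_eF_ge (n := n) (k := k) hp.pos
  push_cast
  linarith

theorem D4c_of (h : StC3) : StD4c := by
  intro n p _ hn q x hq
  have hM0 : (0 : ℚ) ≤ ((14 * n + 1 : ℕ) : ℚ) := Nat.cast_nonneg _
  have hPB1 : ∀ i : ℕ, i ≤ 14 * n → ∀ k : ℕ,
      PB p ((14 * n + 1 : ℕ) : ℚ) (D4f p i) (TS (-(k : ℚ)) (D4P i)) := by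
    intro i hi k
    apply Pool.Agent.LZ.C4_PB (n := n) _ (by exact_mod_cast (by omega : 1 ≤ 14 * n + 1)) _ i hi k
    intro l hl1 hl2
    have h1 := norm_inv_le (p := p) (a := (l : ℤ)) (by omega) (M := ((14 * n + 1 : ℕ) : ℚ)) (by
      rw [Int.cast_natCast, abs_of_nonneg (by positivity)]
      exact_mod_cast (by omega : l ≤ 14 * n + 1))
    rw [Int.cast_natCast] at h1
    exact h1
  have hPB : ∀ i j : ℕ, i < 2 * n → j < 2 * n → ∀ k : ℕ,
      PB p ((14 * n + 1 : ℕ) : ℚ) (D4f p i * D4f p j) (TS (-(k : ℚ)) (D4P i * D4P j)) := by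
    intro i j hi hj k
    rw [map_mul]
    exact PB.mul hM0 (D4f_nonneg p i) (D4f_nonneg p j) (hPB1 i (by omega) k) (hPB1 j (by omega) k)
  refine D4_aux (n := n) (p := p) q x (2 * n) (((14 * n + 1 : ℕ) : ℚ) ^ 40) (pow_nonneg hM0 _) ?_
  intro i j hi hj
  exact h hn q x hq (D4P i * D4P j) _
    (mul_nonneg (D4f_nonneg p i) (D4f_nonneg p j)) (fun k _ => hPB i j hi hj k)

end

end Pool.Agent.TH615.Z3
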