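import Pool.Agent.TH817.Z3.Stm
import Pool.Agent.H337R2.LZ.F1

/-!
# Project Z3: the p-adic part (PM) and the large primes (Pl_of)
-/

open Polynomial Pool.Agent.H337R2 Filter Topology Pool.Agent.TH817.Z3

namespace Pool.Agent.TH615.Z3

noncomputable section

/-- lower end -/
def PMlo (c : Cell) : ℚ := (c.u0 : ℚ) / c.v0

/-- upper end -/
def PMhi (c : Cell) : ℚ := (c.u1 : ℚ) / c.v1

theorem PM_split (a m b : ℚ) (h1 : a ≤ m) (h2 : m ≤ b) (n : ℕ) (G : ℕ → ℝ) :
    ∑ p ∈ PR a b n, G p = ∑ p ∈ PR a m n, G p + ∑ p ∈ PR m b n, G p := by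
  classical
  have hn : (0 : ℚ) ≤ n := by positivity
  have e1 : PR a m n = (PR a b n).filter (fun p : ℕ => (p : ℚ) ≤ m * n) := by
    ext p
    unfold PR Pool.Agent.LZ.PR
    simp only [Finset.mem_filter, Finset.mem_range]
    constructor
    · rintro ⟨q1, q2, q3, q4⟩
      exact ⟨⟨q1, q2, q3, q4.trans (mul_le_mul_of_nonneg_right h2 hn)⟩, q4⟩
    · rintro ⟨⟨q1, q2, q3, -⟩, q4⟩
      exact ⟨q1, q2, q3, q4⟩
  have e2 : PR m b n = (PR a b n).filter (fun p : ℕ => ¬ (p : ℚ) ≤ m * n) := by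
    ext p
    unfold PR Pool.Agent.LZ.PR
    simp only [Finset.mem_filter, Finset.mem_range, not_le]
    constructor
    · rintro ⟨q1, q2, q3, q4⟩
      exact ⟨⟨q1, q2, (mul_le_mul_of_nonneg_right h1 hn).trans_lt q3, q4⟩, q3⟩
    · rintro ⟨⟨q1, q2, -, q4⟩, q3⟩
      exact ⟨q1, q2, q3, q4⟩
  rw [e1, e2, Finset.sum_filter_add_sum_filter_not]

theorem PM_chain : ∀ (L : List Cell) (u v : ℕ), PMchk u v L = true →
    ((u : ℚ) / v ≤ 6) ∧ ∀ (n : ℕ) (G : ℕ → ℝ),
      ∑ p ∈ PR ((u : ℚ) / v) 6 n, G p = (L.map fun c => ∑ p ∈ PR (PMlo c) (PMhi c) n, G p).sum := by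
  intro L
  induction L with
  | nil =>
    intro u v h
    simp only [PMchk, Bool.and_eq_true, decide_eq_true_eq] at h
    obtain ⟨hv, hu⟩ := h
    have e : (u : ℚ) / v = 6 := by
      rw [div_eq_iff (by positivity)]
      exact_mod_cast hu
    refine ⟨e.le, fun n G => ?_⟩
    rw [e, List.map_nil, List.sum_nil]
    apply Finset.sum_eq_zero
    intro p hp
    unfold PR Pool.Agent.LZ.PR at hp
    simp only [Finset.mem_filter] at hp
    linarith [hp.2.2.1, hp.2.2.2]
  | cons c l ih =>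
    intro u v h
    simp only [PMchk, Bool.and_eq_true, decide_eq_true_eq] at h
    obtain ⟨⟨⟨⟨⟨hv, hv0⟩, hv1⟩, he⟩, hle⟩, hl⟩ := h
    obtain ⟨h1, h2⟩ := ih c.u1 c.v1 hl
    have e : (u : ℚ) / v = PMlo c := by
      unfold PMlo
      rw [div_eq_div_iff (by positivity) (by positivity)]
      exact_mod_cast he.symm
    have hlh : PMlo c ≤ PMhi c := by
      unfold PMlo PMhi
      rw [div_le_div_iff₀ (by positivity) (by positivity)]
      exact_mod_cast hle
    have h1' : PMhi c ≤ 6 := h1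
    refine ⟨by rw [e]; exact hlh.trans h1', fun n G => ?_⟩
    rw [e, PM_split _ (PMhi c) 6 hlh h1' n G, List.map_cons, List.sum_cons]
    congr 1
    exact h2 n G

theorem PM_mem {c : Cell} (hc : c.ok = true) {n p : ℕ} (hp : p ∈ PR (PMlo c) (PMhi c) n) :
    p.Prime ∧ c.u0 * n < p * c.v0 ∧ p * c.v1 ≤ c.u1 * n := by
  have hv : 0 < c.v0 ∧ 0 < c.v1 := by
    unfold Cell.ok at hc
    simp only [Bool.and_eq_true, decide_eq_true_eq] at hc
    tauto
  unfold PR Pool.Agent.LZ.PR at hp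
  simp only [Finset.mem_filter] at hp
  obtain ⟨-, h1, h2, h3⟩ := hp
  have hv0 : (0 : ℚ) < c.v0 := by exact_mod_cast hv.1
  have hv1 : (0 : ℚ) < c.v1 := by exact_mod_cast hv.2
  refine ⟨h1, ?_, ?_⟩
  · unfold PMlo at h2
    rw [div_mul_eq_mul_div, div_lt_iff₀ hv0] at h2
    exact_mod_cast h2
  · unfold PMhi at h3
    rw [div_mul_eq_mul_div, le_div_iff₀ hv1] at h3
    exact_mod_cast h3

theorem PM_bound (L : List Cell) (P : Cell → ℝ → Prop) (hmono : ∀ c K K', K ≤ K' → P c K → P c K')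
    (h : ∀ c ∈ L, ∃ K, P c K) : ∃ K : ℝ, 0 ≤ K ∧ ∀ c ∈ L, P c K := by
  induction L with
  | nil => exact ⟨0, le_rfl, fun c hc => absurd hc List.not_mem_nil⟩
  | cons c l ih =>
    obtain ⟨K1, h1, h2⟩ := ih (fun c hc => h c (List.mem_cons_of_mem _ hc))
    obtain ⟨K2, h3⟩ := h c List.mem_cons_self
    refine ⟨max K1 K2, h1.trans (le_max_left _ _), fun d hd => ?_⟩
    rcases List.mem_cons.1 hd with rfl | hd
    · exact hmono _ _ _ (le_max_right _ _) h3
    · exact hmono _ _ _ (le_max_left _ _) (h2 d hd)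

theorem PM_tendsto (L : List Cell) (f : Cell → ℕ → ℝ) (g : Cell → ℝ)
    (h : ∀ c ∈ L, Tendsto (f c) atTop (𝓝 (g c))) :
    Tendsto (fun n => (L.map fun c => f c n).sum) atTop (𝓝 (L.map g).sum) := by
  induction L with
  | nil => simp
  | cons c l ih =>
    simp only [List.map_cons, List.sum_cons]
    exact (h c List.mem_cons_self).add (ih fun c hc => h c (List.mem_cons_of_mem _ hc))

theorem PM_theta (n : ℕ) (a b : ℚ) : ∑ p ∈ PR a b n, Real.log p ≤ Real.log 4 * (15 * n) := by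
  refine le_trans ?_ (Chebyshev.theta_le_log4_mul_x (x := 15 * n) (by positivity))
  unfold Chebyshev.theta
  apply Finset.sum_le_sum_of_subset_of_nonneg
  · intro p hp
    unfold PR Pool.Agent.LZ.PR at hp
    rw [Finset.mem_filter, Finset.mem_range] at hp
    rw [Finset.mem_filter, Finset.mem_Ioc]
    refine ⟨⟨hp.2.1.pos, ?_⟩, hp.2.1⟩
    rw [Nat.le_floor_iff (by positivity)]
    have : ((p : ℕ) : ℝ) ≤ ((15 * n : ℕ) : ℝ) := by exact_mod_cast hp.1.le
    push_cast at this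
    exact this
  · intro p hp _
    rw [Finset.mem_filter] at hp
    exact Real.log_nonneg (by exact_mod_cast hp.2.one_lt.le)

lemma PM_fac_pos (p N : ℕ) (hp : p.Prime) : 0 < ((padicNorm p ((N.factorial : ℕ) : ℚ) : ℚ) : ℝ) := by
  have : Fact p.Prime := ⟨hp⟩
  have : 0 < padicNorm p ((N.factorial : ℕ) : ℚ) :=
    lt_of_le_of_ne (padicNorm.nonneg _) (Ne.symm (padicNorm.nonzero (by exact_mod_cast Nat.factorial_ne_zero N)))
  exact_mod_cast this

lemma PM_z_pos (p : ℕ) (hp : p.Prime) (z : ℚ) (hz : z ≠ 0) : 0 < ((padicNorm p z : ℚ) : ℝ) := by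
  have : Fact p.Prime := ⟨hp⟩
  have : 0 < padicNorm p z := lt_of_le_of_ne (padicNorm.nonneg _) (Ne.symm (padicNorm.nonzero hz))
  exact_mod_cast this

lemma PM_small (hmed : StD4m) (hcrude : StD4c) (n p : ℕ) (hn : 1 ≤ n) (hp : p.Prime) (q : ℕ) (x : ℚ)
    (hx : QI q x) (hz : (q : ℚ) ^ (2 * n) * DET n x (2 * n) ≠ 0) :
    Real.log ((padicNorm p ((q : ℚ) ^ (2 * n) * DET n x (2 * n)) : ℚ) : ℝ) ≤
      2 * (n : ℝ) * (if p ^ 2 ≤ 14 * n then 40 * Real.log (14 * n + 1) else 0) + 6 * (n : ℝ) * Real.log p +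
      2 * ∑ i ∈ Finset.range (2 * n), Real.log ((padicNorm p ((i.factorial : ℕ) : ℚ) : ℚ) : ℝ) := by
  have hF : Fact p.Prime := ⟨hp⟩
  have hp0 : (0 : ℝ) < p := by exact_mod_cast hp.pos
  have hlp : 0 ≤ Real.log p := Real.log_nonneg (by exact_mod_cast hp.one_lt.le)
  have hn0 : (0 : ℝ) ≤ n := by positivity
  have hzp := PM_z_pos p hp _ hz
  have hpp : 0 < ∏ i ∈ Finset.range (2 * n), ((padicNorm p ((i.factorial : ℕ) : ℚ) : ℚ) : ℝ) ^ 2 :=
    Finset.prod_pos fun i _ => pow_pos (PM_fac_pos p _ hp) 2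
  have hprod : Real.log (∏ i ∈ Finset.range (2 * n), ((padicNorm p ((i.factorial : ℕ) : ℚ) : ℚ) : ℝ) ^ 2)
      = 2 * ∑ i ∈ Finset.range (2 * n), Real.log ((padicNorm p ((i.factorial : ℕ) : ℚ) : ℚ) : ℝ) := by
    rw [Real.log_prod (fun i _ => (pow_pos (PM_fac_pos p _ hp) 2).ne'), Finset.mul_sum]
    apply Finset.sum_congr rfl
    intro i _
    rw [Real.log_pow]
    norm_num
  by_cases h2 : p ^ 2 ≤ 14 * n
  · rw [if_pos h2]
    have h3 : ((padicNorm p ((q : ℚ) ^ (2 * n) * DET n x (2 * n)) : ℚ) : ℝ) ≤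
        ((14 * (n : ℝ) + 1) ^ 40) ^ (2 * n) *
        ∏ i ∈ Finset.range (2 * n), ((padicNorm p ((i.factorial : ℕ) : ℚ) : ℚ) : ℝ) ^ 2 := by
      have h4 := (Rat.cast_le (K := ℝ)).2 (hcrude (p := p) hn q x hx)
      push_cast at h4
      exact h4
    have h5 := Real.log_le_log hzp h3
    rw [Real.log_mul (by positivity) hpp.ne', hprod, Real.log_pow, Real.log_pow] at h5
    have e1 : ((2 * n : ℕ) : ℝ) * (((40 : ℕ) : ℝ) * Real.log (14 * (n : ℝ) + 1)) =
        2 * (n : ℝ) * (40 * Real.log (14 * n + 1)) := by push_cast; ring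
    rw [e1] at h5
    have h6 : 0 ≤ 6 * (n : ℝ) * Real.log p := by positivity
    linarith
  · rw [if_neg h2]
    have h3 : ((padicNorm p ((q : ℚ) ^ (2 * n) * DET n x (2 * n)) : ℚ) : ℝ) ≤
        ((p : ℝ) ^ 3) ^ (2 * n) *
        ∏ i ∈ Finset.range (2 * n), ((padicNorm p ((i.factorial : ℕ) : ℚ) : ℚ) : ℝ) ^ 2 := by
      have h4 := (Rat.cast_le (K := ℝ)).2 (hmed (p := p) hn (by omega) q x hx)
      push_cast at h4
      exact h4
    have h5 := Real.log_le_log hzp h3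
    rw [Real.log_mul (by positivity) hpp.ne', hprod, Real.log_pow, Real.log_pow] at h5
    have e1 : ((2 * n : ℕ) : ℝ) * (((3 : ℕ) : ℝ) * Real.log p) = 6 * (n : ℝ) * Real.log p := by
      push_cast; ring
    rw [e1] at h5
    linarith

/-- the statement of the cell bound for `c` with the constant `K0` -/
def PMcell (c : Cell) (K0 : ℝ) : Prop := ∀ n : ℕ, 1 ≤ n → ∀ p : ℕ, p.Prime → 9 * n < p ^ 2 →
    c.u0 * n < p * c.v0 → p * c.v1 ≤ c.u1 * n → ∀ (q : ℕ) (x : ℚ), QI q x →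
    ((padicNorm p ((q : ℚ) ^ (2 * n) * DET n x (2 * n)) : ℚ) : ℝ) ≤
      (p : ℝ) ^ ((c.AB.1 : ℝ) / 2 * n + c.AB.2 * p + K0)

lemma PMcell_mono (c : Cell) (K K' : ℝ) (h : K ≤ K') (hK : PMcell c K) : PMcell c K' := by
  intro n hn p hp h1 h2 h3 q x hx
  refine (hK n hn p hp h1 h2 h3 q x hx).trans ?_
  apply Real.rpow_le_rpow_of_exponent_le
  · exact_mod_cast hp.one_lt.le
  · linarith

/-- the weights of the factorials -/
def PMw (n p : ℕ) : ℝ :=
  ((2 * ∑ i ∈ Finset.range (2 * n), (i / p) : ℕ) : ℝ) * Real.log p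

/-- the sum over the large primes -/
lemma PM_large_sum (L : List Cell) (hchk : PMchk 1 80 L = true)
    (hE5ok : L.all Cell.ok = true) (hF4 : StF4)
    (K : ℝ) (hK : 0 ≤ K) (hE4 : ∀ c ∈ L, PMcell c K) (n : ℕ) (hn : 100000 ≤ n)
    (q : ℕ) (x : ℚ) (hx : QI q x) (hz : (q : ℚ) ^ (2 * n) * DET n x (2 * n) ≠ 0) :
    ∑ p ∈ PR (1 / 80) 6 n,
      (Real.log ((padicNorm p ((q : ℚ) ^ (2 * n) * DET n x (2 * n)) : ℚ) : ℝ) + PMw n p) ≤
      (L.map fun c => ∑ p ∈ PR (PMlo c) (PMhi c) n,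
        (((c.AB.1 : ℝ) / 2 + (c.sf.1 : ℝ)) * n + ((c.AB.2 + c.sf.2 : ℤ) : ℝ) * p) * Real.log p).sum +
      K * (Real.log 4 * (15 * n)) := by
  have hch := (PM_chain L 1 80 hchk).2 n
  have e40 : (((1 : ℕ) : ℚ) / ((80 : ℕ) : ℚ)) = 1 / 80 := by norm_num
  rw [e40] at hch
  rw [hch]
  have h1 : (L.map fun c => ∑ p ∈ PR (PMlo c) (PMhi c) n,
      (Real.log ((padicNorm p ((q : ℚ) ^ (2 * n) * DET n x (2 * n)) : ℚ) : ℝ) + PMw n p)).sum ≤
      (L.map fun c => (∑ p ∈ PR (PMlo c) (PMhi c) n,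
        (((c.AB.1 : ℝ) / 2 + (c.sf.1 : ℝ)) * n + ((c.AB.2 + c.sf.2 : ℤ) : ℝ) * p) * Real.log p) +
        K * ∑ p ∈ PR (PMlo c) (PMhi c) n, Real.log p).sum := by
    apply List.sum_le_sum
    intro c hc
    have hok : c.ok = true := List.all_eq_true.1 hE5ok c hc
    rw [Finset.mul_sum, ← Finset.sum_add_distrib]
    apply Finset.sum_le_sum
    intro p hp
    obtain ⟨hpp, m1, m2⟩ := PM_mem hok hp
    have hp0 : (0 : ℝ) < p := by exact_mod_cast hpp.pos
    have hlp : 0 ≤ Real.log p := Real.log_nonneg (by exact_mod_cast hpp.one_lt.le)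
    -- `n < 40 p`
    have hn40 : n < 80 * p := by
      have hmem : p ∈ PR (1 / 80) 6 n := by
        by_contra hcon
        have hG := hch (fun r => if r = p then 1 else 0)
        have z1 : ∑ r ∈ PR (1 / 80) 6 n, (if r = p then (1 : ℝ) else 0) = 0 := by
          apply Finset.sum_eq_zero
          intro r hr
          rw [if_neg]
          rintro rfl
          exact hcon hr
        rw [z1] at hG
        have z2 : (1 : ℝ) ≤ ∑ r ∈ PR (PMlo c) (PMhi c) n, (if r = p then (1 : ℝ) else 0) := by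
          have := Finset.single_le_sum (f := fun r : ℕ => if r = p then (1 : ℝ) else 0)
            (fun r _ => by split_ifs <;> norm_num) hp
          simpa using this
        have z3 := List.single_le_sum (l := L.map fun c => ∑ r ∈ PR (PMlo c) (PMhi c) n,
          (if r = p then (1 : ℝ) else 0)) (by
            intro x hx
            obtain ⟨c', -, rfl⟩ := List.mem_map.1 hx
            exact Finset.sum_nonneg fun r _ => by split_ifs <;> norm_num) _
            (List.mem_map.2 ⟨c, hc, rfl⟩)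
        linarith
      unfold PR Pool.Agent.LZ.PR at hmem
      simp only [Finset.mem_filter] at hmem
      have h3 := hmem.2.2.1
      have : (n : ℚ) < 80 * p := by linarith
      exact_mod_cast this
    have h12 : 9 * n < p ^ 2 := by nlinarith
    have h5 := hE4 c hc n (by omega) p hpp h12 m1 m2 q x hx
    have h6 := Real.log_le_log (PM_z_pos p hpp _ hz) h5
    rw [Real.log_rpow hp0] at h6
    have h7 : PMw n p = ((c.sf.1 : ℝ) * n + c.sf.2 * p) * Real.log p := by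
      unfold PMw
      congr 1
      have h8 := hF4 hok (n := n) (p := p) (by omega) hpp.pos m1 m2
      rw [← Int.cast_natCast, h8]
      push_cast
      ring
    rw [h7]
    push_cast
    nlinarith
  refine h1.trans ?_
  rw [List.sum_map_add, List.sum_map_mul_left]
  have h2 : (L.map fun c => ∑ p ∈ PR (PMlo c) (PMhi c) n, Real.log (p : ℝ)).sum ≤
      Real.log 4 * (15 * n) := by
    rw [← hch]
    exact PM_theta n _ _
  have h3 := mul_le_mul_of_nonneg_left h2 hK
  linarith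

/-- the limit of the sum over a cell, half-integral coefficient -/
theorem PM_F1 (lo hi : ℚ) (h0 : 0 < lo) (h1 : lo ≤ hi) (h2 : hi ≤ 14) (A S B : ℤ) :
    Tendsto (fun n : ℕ => (∑ p ∈ PR lo hi n, (((A : ℝ) / 2 + (S : ℝ)) * n + B * p) * Real.log p) / (n : ℝ) ^ 2)
      atTop (𝓝 (((((A : ℚ) / 2 + (S : ℚ)) * (hi - lo) + B * (hi ^ 2 - lo ^ 2) / 2 : ℚ)) : ℝ)) := by
  have h := (Pool.Agent.LZ.F1_lin lo hi h0 h1 h2 (A + 2 * S) (2 * B)).mul_const (1 / 2 : ℝ)
  have e1 : ((((((A + 2 * S : ℤ) : ℚ) * (hi - lo) + ((2 * B : ℤ) : ℚ) * (hi ^ 2 - lo ^ 2) / 2 : ℚ)) : ℝ)) * (1 / 2 : ℝ)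
      = (((((A : ℚ) / 2 + (S : ℚ)) * (hi - lo) + B * (hi ^ 2 - lo ^ 2) / 2 : ℚ)) : ℝ) := by
    push_cast
    ring
  rw [e1] at h
  refine h.congr fun n => ?_
  rw [div_mul_eq_mul_div, Finset.sum_mul]
  congr 1
  apply Finset.sum_congr rfl
  intro p _
  push_cast
  ring

lemma PM_ev {f : ℕ → ℝ} {L : ℝ} (h : Tendsto (fun n : ℕ => f n / (n : ℝ) ^ 2) atTop (𝓝 L)) (ε : ℝ)
    (hε : 0 < ε) : ∀ᶠ n : ℕ in atTop, f n ≤ (L + ε) * (n : ℝ) ^ 2 := by
  filter_upwards [h.eventually_lt_const (show L < L + ε by linarith), eventually_ge_atTop 1] with n h1 hn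
  have hn0 : (0 : ℝ) < (n : ℝ) ^ 2 := by
    have : (0 : ℝ) < n := by exact_mod_cast hn
    positivity
  rw [div_lt_iff₀ hn0] at h1
  exact h1.le

/-- **the p-adic part**, from the results of the other tasks -/
theorem PM : StPM := by
  classical
  intro L hchk hE5ok hF3 hmed hcrude hE4' hF4 hF5 hF6 hF7 ε hε
  have hE4 : ∀ c ∈ L, ∃ K0 : ℝ, PMcell c K0 := fun c hc => hE4' c (List.all_eq_true.1 hE5ok c hc)
  obtain ⟨K, hK, hcell⟩ := PM_bound L PMcell PMcell_mono hE4
  -- the limit of the sum over the cells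
  have hlim : Tendsto (fun n : ℕ => (L.map fun c => ∑ p ∈ PR (PMlo c) (PMhi c) n,
        (((c.AB.1 : ℝ) / 2 + (c.sf.1 : ℝ)) * n + ((c.AB.2 + c.sf.2 : ℤ) : ℝ) * p) * Real.log p).sum /
        (n : ℝ) ^ 2) atTop (𝓝 (((L.map Cell.lim).sum : ℚ) : ℝ)) := by
    have h1 := PM_tendsto L (fun c n => (∑ p ∈ PR (PMlo c) (PMhi c) n,
        (((c.AB.1 : ℝ) / 2 + (c.sf.1 : ℝ)) * n + ((c.AB.2 + c.sf.2 : ℤ) : ℝ) * p) * Real.log p) /
        (n : ℝ) ^ 2) (fun c => ((c.lim : ℚ) : ℝ)) (by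
      intro c hc
      have hok : c.ok = true := List.all_eq_true.1 hE5ok c hc
      have hpos : 0 < c.u0 ∧ 0 < c.v0 ∧ 0 < c.v1 ∧ c.u0 * c.v1 < c.u1 * c.v0 := by
        have hok' := hok
        unfold Cell.ok at hok'
        simp only [Bool.and_eq_true, decide_eq_true_eq] at hok'
        tauto
      obtain ⟨p1, p2, p3, p4⟩ := hpos
      have hlo : 0 < PMlo c := by
        unfold PMlo
        have q1 : (0 : ℚ) < c.u0 := by exact_mod_cast p1
        have q2 : (0 : ℚ) < c.v0 := by exact_mod_cast p2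
        positivity
      have hlh : PMlo c ≤ PMhi c := by
        unfold PMlo PMhi
        rw [div_le_div_iff₀ (by exact_mod_cast p2) (by exact_mod_cast p3)]
        exact_mod_cast p4.le
      have hhi : PMhi c ≤ 6 := by
        have key : ∀ (L' : List Cell) (u v : ℕ), PMchk u v L' = true → ∀ c ∈ L', PMhi c ≤ 6 := by
          intro L'
          induction L' with
          | nil => intro u v _ c hc; exact absurd hc List.not_mem_nil
          | cons d l ih =>
            intro u v h c hc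
            simp only [PMchk, Bool.and_eq_true, decide_eq_true_eq] at h
            rcases List.mem_cons.1 hc with rfl | hc
            · exact (PM_chain l c.u1 c.v1 h.2).1
            · exact ih _ _ h.2 c hc
        exact key L 1 80 hchk c hc
      exact PM_F1 (PMlo c) (PMhi c) hlo hlh (hhi.trans (by norm_num)) _ _ _)
    have e1 : (L.map fun c => ((c.lim : ℚ) : ℝ)).sum = (((L.map Cell.lim).sum : ℚ) : ℝ) := by
      rw [Rat.cast_list_sum, List.map_map]
      rfl
    rw [e1] at h1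
    refine h1.congr fun n => ?_
    rw [div_eq_mul_inv, ← List.sum_map_mul_right]
    simp only [div_eq_mul_inv]
  have hF3' : (((L.map Cell.lim).sum : ℚ) : ℝ) ≤ 10009 / 1000 := by
    have h := (Rat.cast_le (K := ℝ)).2 hF3
    push_cast at h ⊢
    exact h
  have hε8 : 0 < ε / 8 := by positivity
  have ev1 := PM_ev hlim (ε / 8) hε8
  have ev6 := hF6 (ε / 8) hε8
  have ev7 := hF7 (ε / 8) hε8
  have ev9 : ∀ᶠ n : ℕ in atTop, K * (Real.log 4 * 15) ≤ ε / 8 * n := by
    have := (tendsto_natCast_atTop_atTop (R := ℝ)).const_mul_atTop hε8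
    exact this.eventually_ge_atTop _
  unfold StF5 at hF5
  filter_upwards [ev1, hF5, ev6, ev7, ev9, eventually_ge_atTop 100000] with n g1 g5 g6 g7 g9 hn
  intro q x hx hD
  have hn0 : (0 : ℝ) < n := by exact_mod_cast (by omega : 0 < n)
  have hn1 : 1 ≤ n := by omega
  have hqq : (0 : ℚ) < q := by exact_mod_cast hx.1
  have hz : (q : ℚ) ^ (2 * n) * DET n x (2 * n) ≠ 0 := mul_ne_zero (pow_pos hqq _).ne' hD
  rw [← Finset.sum_filter_add_sum_filter_not _ (fun p => 80 * p ≤ n)]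
  have e1 : ((Finset.range (6 * n + 1)).filter Nat.Prime).filter (fun p => 80 * p ≤ n) =
      (Finset.range (n + 1)).filter (fun p : ℕ => p.Prime ∧ 80 * p ≤ n) := by
    ext p
    simp only [Finset.mem_filter, Finset.mem_range]
    constructor
    · rintro ⟨⟨h1, h2⟩, h3⟩; exact ⟨by omega, h2, h3⟩
    · rintro ⟨h1, h2, h3⟩; exact ⟨⟨by omega, h2⟩, h3⟩
  have e2 : ((Finset.range (6 * n + 1)).filter Nat.Prime).filter (fun p => ¬ 80 * p ≤ n) =
      PR (1 / 80) 6 n := by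
    ext p
    unfold PR Pool.Agent.LZ.PR
    simp only [Finset.mem_filter, Finset.mem_range]
    constructor
    · rintro ⟨⟨h1, h2⟩, h3⟩
      refine ⟨by omega, h2, ?_, ?_⟩
      · have : (n : ℚ) < 80 * p := by exact_mod_cast (by omega : n < 80 * p)
        linarith
      · exact_mod_cast (by omega : p ≤ 6 * n)
    · rintro ⟨h1, h2, h3, h4⟩
      have h5 : n < 80 * p := by
        have : (n : ℚ) < 80 * p := by linarith
        exact_mod_cast this
      have h6 : p ≤ 6 * n := by exact_mod_cast h4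
      exact ⟨⟨by omega, h2⟩, by omega⟩
  rw [e1, e2]
  have hsmall : ∑ p ∈ (Finset.range (n + 1)).filter (fun p : ℕ => p.Prime ∧ 80 * p ≤ n),
      Real.log ((padicNorm p ((q : ℚ) ^ (2 * n) * DET n x (2 * n)) : ℚ) : ℝ) ≤
      (2 * (n : ℝ) * ∑ p ∈ (Finset.range (n + 1)).filter (fun p : ℕ => p.Prime ∧ p ^ 2 ≤ 14 * n),
          40 * Real.log (14 * n + 1) +
      6 * (n : ℝ) * ∑ p ∈ (Finset.range (n + 1)).filter (fun p : ℕ => p.Prime ∧ 80 * p ≤ n), Real.log p) +
      ∑ p ∈ (Finset.range (n + 1)).filter (fun p : ℕ => p.Prime ∧ 80 * p ≤ n),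
        2 * ∑ i ∈ Finset.range (2 * n), Real.log ((padicNorm p ((i.factorial : ℕ) : ℚ) : ℚ) : ℝ) := by
    calc _ ≤ ∑ p ∈ (Finset.range (n + 1)).filter (fun p : ℕ => p.Prime ∧ 80 * p ≤ n),
          (2 * (n : ℝ) * (if p ^ 2 ≤ 14 * n then 40 * Real.log (14 * n + 1) else 0) + 6 * (n : ℝ) * Real.log p +
          2 * ∑ i ∈ Finset.range (2 * n), Real.log ((padicNorm p ((i.factorial : ℕ) : ℚ) : ℚ) : ℝ)) := by
          apply Finset.sum_le_sum
          intro p hp
          rw [Finset.mem_filter] at hp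
          exact PM_small hmed hcrude n p hn1 hp.2.1 q x hx hz
      _ ≤ _ := by
          rw [Finset.sum_add_distrib, Finset.sum_add_distrib, ← Finset.mul_sum, ← Finset.mul_sum]
          apply add_le_add_left
          apply add_le_add_left
          apply mul_le_mul_of_nonneg_left _ (by positivity)
          rw [← Finset.sum_filter]
          apply Finset.sum_le_sum_of_subset_of_nonneg
          · intro p hp
            simp only [Finset.mem_filter, Finset.mem_range] at hp ⊢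
            exact ⟨hp.1.1, hp.1.2.1, hp.2⟩
          · intro p _ _
            have : 0 ≤ Real.log (14 * (n : ℝ) + 1) := Real.log_nonneg (by linarith)
            positivity
  have hlarge := PM_large_sum L hchk hE5ok hF4 K hK hcell n hn q x hx hz
  rw [Finset.sum_add_distrib] at hlarge
  have hw : ∑ p ∈ PR (1 / 80) 6 n, PMw n p = ∑ p ∈ PR (1 / 80) 6 n,
      ((2 * ∑ i ∈ Finset.range (2 * n), (i / p) : ℕ) : ℝ) * Real.log p := rfl
  rw [hw] at hlarge
  have hfin : K * (Real.log 4 * (15 * n)) ≤ ε / 8 * (n : ℝ) ^ 2 := by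
    have := mul_le_mul_of_nonneg_right g9 hn0.le
    nlinarith
  have hn2 : (0 : ℝ) < (n : ℝ) ^ 2 := by positivity
  have h10 : ((((L.map Cell.lim).sum : ℚ) : ℝ) + ε / 8) * (n : ℝ) ^ 2 ≤
      (10009 / 1000 + ε / 8) * (n : ℝ) ^ 2 := by
    apply mul_le_mul_of_nonneg_right _ hn2.le
    linarith
  have htot : -(4 * (n : ℝ) ^ 2 * Real.log n) + (6 / 80 + 3228 / 1000 + 10009 / 1000 + ε / 2) * (n : ℝ) ^ 2 ≤
      -(4 * (n : ℝ) ^ 2 * Real.log n) + (13312 / 1000 + ε) * (n : ℝ) ^ 2 := by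
    have : (6 / 80 + 3228 / 1000 + 10009 / 1000 + ε / 2) * (n : ℝ) ^ 2 ≤ (13312 / 1000 + ε) * (n : ℝ) ^ 2 := by
      apply mul_le_mul_of_nonneg_right _ hn2.le
      linarith
    linarith
  refine le_trans ?_ htot
  linarith

/-- large primes, from `StD3l` -/
theorem Pl_of (h : StD3l) : StPl := by
  intro q x hx n hn p hp hlt
  have : Fact p.Prime := ⟨hp⟩
  exact h (p := p) hn (by nlinarith) (by omega) q x hx (2 * n)

end

end Pool.Agent.TH615.Z3

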